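import Pool.Agent.Y995.LG.Stm2

/-!
Project LG, part UNI: the dimension formula for images under the closed curve.
-/

set_option autoImplicit false

namespace Pool.Agent.Y419.LG

open Pool.Agent.Y995.LG
open H984P H984N MeasureTheory Filter Topology
open scoped ENNReal NNReal

theorem per_one (c : C(unitInterval, ℂ)) (t : ℝ) : per c (t + 1) = per c t := by
  unfold per
  simp only [Int.fract_add_one]

theorem per_self {c : C(unitInterval, ℂ)} (h : c 0 = c 1) (t : unitInterval) : per c t = c t := by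
  unfold per
  rcases eq_or_lt_of_le t.2.2 with h1 | h1
  · have h2 : t = 1 := Subtype.ext h1
    subst h2
    rw [← h]
    congr 1
    apply Subtype.ext
    simp
  · congr 1
    apply Subtype.ext
    exact Int.fract_eq_self.mpr ⟨t.2.1, h1⟩

/-- maps which multiply the distances by a constant preserve the dimension -/
theorem dimH_scale {X Y : Type*} [MetricSpace X] [MetricSpace Y] [Nonempty X]
    {f : X → Y} {A : Set X} {ρ : ℝ} (hρ : 0 < ρ)
    (h : ∀ s ∈ A, ∀ t ∈ A, dist (f s) (f t) = ρ * dist s t) : dimH (f '' A) = dimH A := by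
  refine le_antisymm ?_ ?_
  · have h1 : LipschitzOnWith ρ.toNNReal f A := by
      refine LipschitzOnWith.of_dist_le_mul fun s hs t ht => ?_
      rw [Real.coe_toNNReal _ hρ.le, h s hs t ht]
    exact h1.dimH_image_le
  · have hinj : Set.InjOn f A := by
      intro s hs t ht hst
      have h1 := h s hs t ht
      rw [hst, dist_self] at h1
      have h2 : dist s t = 0 := by
        rcases mul_eq_zero.1 h1.symm with h3 | h3
        · exact absurd h3 hρ.ne'
        · exact h3
      exact dist_eq_zero.1 h2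
    have hl := hinj.leftInvOn_invFunOn
    have h2 : LipschitzOnWith (ρ⁻¹).toNNReal (Function.invFunOn f A) (f '' A) := by
      refine LipschitzOnWith.of_dist_le_mul ?_
      rintro _ ⟨s, hs, rfl⟩ _ ⟨t, ht, rfl⟩
      rw [Real.coe_toNNReal _ (inv_pos.2 hρ).le, hl hs, hl ht, h s hs t ht]
      apply le_of_eq
      field_simp
    have h3 := h2.dimH_image_le
    rwa [hl.image_image] at h3

theorem uni (hA : S_ARC) (hC : S_COV) : S_UNI := by
  intro G p hG h0 hex hloc E hE
  obtain ⟨u, v, z, q, hi, hcov⟩ := hC G p h0 hex hloc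
  obtain ⟨A, hAd⟩ : ∃ A : Option ℕ → Set unitInterval, A = fun o => match o with
      | none => E ∩ {1}
      | some i => {t | t ∈ E ∧ u i < (t : ℝ) + 1 ∧ (t : ℝ) + 1 < v i} := ⟨_, rfl⟩
  have hAn : A none = E ∩ {1} := by rw [hAd]
  have hAs : ∀ i, A (some i) = {t | t ∈ E ∧ u i < (t : ℝ) + 1 ∧ (t : ℝ) + 1 < v i} := fun i => by
    rw [hAd]
  have hEA : E = ⋃ o, A o := by
    refine Set.Subset.antisymm ?_ ?_
    · intro t ht
      rw [Set.mem_iUnion]
      rcases eq_or_lt_of_le t.2.2 with h1 | h1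
      · refine ⟨none, ?_⟩
        rw [hAn]
        exact ⟨ht, Subtype.ext h1⟩
      · have h2 : per p.1 ((t : ℝ) + 1) ∈ sq := by
          rw [per_one, per_self h0]
          exact hE t ht
        obtain ⟨i, h3, h4⟩ := hcov ((t : ℝ) + 1) (by linarith [t.2.1]) (by linarith) h2
        refine ⟨some i, ?_⟩
        rw [hAs]
        exact ⟨ht, h3, h4⟩
    · refine Set.iUnion_subset fun o => ?_
      rcases o with _ | i
      · rw [hAn]
        exact Set.inter_subset_left
      · rw [hAs]
        exact fun t ht => ht.1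
  have hmain : ∀ o, dimH (p.1 '' A o) = 7 / 4 * dimH (A o) := by
    intro o
    rcases o with _ | i
    · rw [hAn]
      have h1 : (E ∩ {1}).Subsingleton :=
        Set.subsingleton_singleton.anti Set.inter_subset_right
      rw [dimH_subsingleton h1, dimH_subsingleton (h1.image _), mul_zero]
    · obtain ⟨hu0, huv, hv1, hqG, hseg, hne⟩ := hi i
      obtain ⟨lam, ρ, hρ, -, -, hlam, hper⟩ := hA p (q i) (z i) (u i) (v i) h0 (hG _ hqG).1 hseg
        huv hne
      obtain ⟨f, hf⟩ : ∃ f : unitInterval → unitInterval,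
          f = fun t : unitInterval => lam ((t : ℝ) + 1) :=
        ⟨_, rfl⟩
      have h1 : p.1 '' A (some i) =
          (IsometryEquiv.addLeft (z i) : ℂ ≃ᵢ ℂ) '' ((q i).1 '' (f '' A (some i))) := by
        rw [Set.image_image, Set.image_image]
        refine Set.image_congr fun t ht => ?_
        rw [hAs] at ht
        have h2 : p.1 t = per p.1 ((t : ℝ) + 1) := by rw [per_one, per_self h0]
        rw [h2, hper _ ⟨ht.2.1.le, ht.2.2.le⟩, hf]
        rfl
      have h3 : dimH (f '' A (some i)) = dimH (A (some i)) := by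
        refine dimH_scale hρ fun s hs t ht => ?_
        rw [hAs] at hs ht
        have h4 := hlam ((t : ℝ) + 1) ((s : ℝ) + 1) ⟨ht.2.1.le, ht.2.2.le⟩ ⟨hs.2.1.le, hs.2.2.le⟩
        rw [hf, Subtype.dist_eq, Subtype.dist_eq, Real.dist_eq, Real.dist_eq]
        have h5 : (lam ((s : ℝ) + 1) : ℝ) - lam ((t : ℝ) + 1) = ρ * ((s : ℝ) - t) := by linarith
        show |(lam ((s : ℝ) + 1) : ℝ) - lam ((t : ℝ) + 1)| = ρ * |(s : ℝ) - t|
        rw [h5, abs_mul, abs_of_pos hρ]
      rw [h1, IsometryEquiv.dimH_image, (hG _ hqG).2, h3]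
  have e1 : dimH E = ⨆ o, dimH (A o) := by
    conv_lhs => rw [hEA]
    exact dimH_iUnion _
  have e2 : dimH (p.1 '' E) = ⨆ o, dimH (p.1 '' A o) := by
    conv_lhs => rw [hEA]
    rw [Set.image_iUnion]
    exact dimH_iUnion _
  rw [e1, e2, ENNReal.mul_iSup]
  exact iSup_congr hmain

end Pool.Agent.Y419.LG
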